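import Pool.Agent.L7h57.RV.Ut
import Pool.Agent.Results.MP_2a1f98_al.ThreeReversibles

/-!
# Project RV: the two starting formalisations of the group of formal maps agree
-/

namespace Pool.Agent.L7h57.RV

open Pool.Helper89.Rev

/-- the formal maps of the starting file ThreeReversibles -/
abbrev TR (n : ℕ) : Type := Pool.Agent.Results.MP_2a1f98_al.ThreeReversibles.FormalMap n

variable {n : ℕ}

/-- a unit of the monoid of formal maps as a formal map with invertible linear part -/
noncomputable def toTR (F : G n) : TR n where
  toFun := (F : FormalMap n).comp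
  constantCoeff_eq_zero := (F : FormalMap n).const_zero
  det_ne_zero := by
    have h : linPart (F : FormalMap n) * linPart ((F⁻¹ : G n) : FormalMap n) = 1 := by
      rw [← linPart_mul, ← Units.val_mul, mul_inv_cancel, Units.val_one, linPart_one]
    intro h0
    have h1 := congrArg Matrix.det h
    rw [Matrix.det_mul, Matrix.det_one] at h1
    have h2 : (linPart (F : FormalMap n)).det = 0 := h0
    rw [h2, zero_mul] at h1
    exact zero_ne_one h1

theorem toTR_one : toTR (1 : G n) = 1 := rfl

theorem toTR_mul (F F' : G n) : toTR (F * F') = toTR F * toTR F' := rfl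

/-- `toTR` as a homomorphism -/
noncomputable def toTRHom : G n →* TR n where
  toFun := toTR
  map_one' := toTR_one
  map_mul' := toTR_mul

/-- the underlying element of the monoid -/
noncomputable def under (f : TR n) : FormalMap n := ⟨f.toFun, f.constantCoeff_eq_zero⟩

theorem under_mul (f g : TR n) : under (f * g) = under f * under g := rfl

theorem under_one : under (1 : TR n) = 1 := rfl

/-- back -/
noncomputable def ofTR (f : TR n) : G n where
  val := under f
  inv := under f⁻¹
  val_inv := by rw [← under_mul, mul_inv_cancel, under_one]
  inv_val := by rw [← under_mul, inv_mul_cancel, under_one]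

theorem toTR_ofTR (f : TR n) : toTR (ofTR f) = f := rfl

theorem linPart_ofTR (f : TR n) : linPart ((ofTR f : G n) : FormalMap n) = f.lin := rfl

open Pool.Agent.Results.MP_2a1f98_al.ThreeReversibles.FormalMap in
/-- products of involutions agree -/
theorem prods_of_prodInv {r : ℕ} {f : TR n} (h : ProdInv r (ofTR f)) : f ∈ Prods (Invol n) r := by
  obtain ⟨s, hs, hp⟩ := h
  refine ⟨fun j => toTR (s j), fun j => ?_, ?_⟩
  · change toTR (s j) * toTR (s j) = 1
    rw [← toTR_mul, hs j, toTR_one]
  · have e : (List.ofFn fun j => toTR (s j)).prod = toTRHom (List.ofFn s).prod := by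
      rw [map_list_prod, List.map_ofFn]
      rfl
    rw [e, ← hp]
    rfl

end Pool.Agent.L7h57.RV
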