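import Pool.Agent.L7h57.RV.Ut

/-!
# Project RV, part N2: dimension two
-/

namespace Pool.Agent.L7h57.RV

open MvPolynomial Pool.Helper89.Rev

theorem noInv_two (h : S_NI2) : NoInv 2 := fun v hv d p hd hp h1 h2 => h v hv d p hd hp h1 h2

/-- linear part of determinant `-1`, nonscalar, of nonzero trace -/
theorem tri_case (h3 : S_THM) (h4 : S_NI2) (h5 : S_L2A) (F : G 2)
    (hdet : (linPart (F : FormalMap 2)).det = -1) (htr : (linPart (F : FormalMap 2)).trace ≠ 0)
    (hs : ∀ c : ℂ, linPart (F : FormalMap 2) ≠ c • 1) : ProdInv 3 F := by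
  obtain ⟨v, g, g', hv, hg, hg', hL⟩ := h5 _ hdet htr hs
  exact h3 2 le_rfl (noInv_two h4) v hv F g g' hg hg' hL

theorem s_N2 (h1 : S_LEMA) (h2 : S_LEMC) (h3 : S_THM) (h4 : S_NI2) (h5 : S_L2A) (h6 : S_L2B) :
    S_N2 := by
  intro F hF
  set L := linPart (F : FormalMap 2) with hL
  by_cases hsc : ∃ c : ℂ, L = c • 1
  · obtain ⟨c, hc⟩ := hsc
    have hd : L.det = c ^ 2 := by
      rw [hc, Matrix.det_smul, Matrix.det_one, mul_one]
      simp
    have hc4 : (c - 1) * (c + 1) * ((c - Complex.I) * (c + Complex.I)) = 0 := by
      have e : (c - 1) * (c + 1) * ((c - Complex.I) * (c + Complex.I)) =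
          (c ^ 2 - 1) * (c ^ 2 - Complex.I ^ 2) := by ring
      rw [e, Complex.I_sq, ← hd]
      rcases hF with h | h <;> rw [h] <;> ring
    rcases mul_eq_zero.1 hc4 with h | h
    · rcases mul_eq_zero.1 h with h | h
      · -- c = 1
        have hc1 : c = 1 := sub_eq_zero.1 h
        have hlin : linPart ((F * mone 2 : G 2) : FormalMap 2) = -1 := by
          rw [Units.val_mul, linPart_mul, linPart_mone, ← hL, hc, hc1, one_smul, one_mul]
        have h7 := (h1 _ hlin).snoc (mone_sq 2)
        rwa [mul_assoc, mone_sq, mul_one] at h7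
      · -- c = -1
        have hc1 : c = -1 := eq_neg_of_add_eq_zero_left h
        have hlin : linPart (F : FormalMap 2) = -1 := by
          rw [← hL, hc, hc1, neg_smul, one_smul]
        exact (h1 _ hlin).succ
    · rcases mul_eq_zero.1 h with h | h
      · have hc1 : c = Complex.I := sub_eq_zero.1 h
        exact (h2 F (Or.inl (by rw [← hL, hc, hc1]))).succ
      · have hc1 : c = -Complex.I := eq_neg_of_add_eq_zero_left h
        exact (h2 F (Or.inr (by rw [← hL, hc, hc1]))).succ
  · push Not at hsc
    rcases hF with hdet | hdet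
    · -- determinant one
      obtain ⟨s, hss, hd, ht, hn⟩ := h6 L hdet hsc
      have hlin : linPart ((F * unitOf s s hss hss : G 2) : FormalMap 2) = L * s := by
        rw [Units.val_mul, linPart_mul, linPart_unitOf]
      have h7 : ProdInv 3 (F * unitOf s s hss hss) := by
        apply tri_case h3 h4 h5
        · rw [hlin]; exact hd
        · rw [hlin]; exact ht
        · intro c; rw [hlin]; exact hn c
      have h8 := h7.snoc (unitOf_sq hss)
      rwa [mul_assoc, unitOf_sq, mul_one] at h8
    · by_cases ht : L.trace = 0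
      · -- `L² = 1`
        have hLL : L * L = 1 := by
          have h7 := L.eta_fin_two
          have d1 : L 0 0 * L 1 1 - L 0 1 * L 1 0 = -1 := by rw [← Matrix.det_fin_two]; exact hdet
          have d2 : L 0 0 + L 1 1 = 0 := by rw [← Matrix.trace_fin_two]; exact ht
          have e : L * L = !![1, 0; 0, 1] := by
            rw [h7, Matrix.mul_fin_two]
            congr 1
            ext i j
            fin_cases i <;> fin_cases j
            · change L 0 0 * L 0 0 + L 0 1 * L 1 0 = 1
              linear_combination (L 0 0) * d2 - d1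
            · change L 0 0 * L 0 1 + L 0 1 * L 1 1 = 0
              linear_combination (L 0 1) * d2
            · change L 1 0 * L 0 0 + L 1 1 * L 1 0 = 0
              linear_combination (L 1 0) * d2
            · change L 1 0 * L 0 1 + L 1 1 * L 1 1 = 1
              linear_combination (L 1 1) * d2 - d1
          rw [e, ← Matrix.one_fin_two]
        have hM : (-L) * (-L) = 1 := by rw [neg_mul_neg, hLL]
        have hlin : linPart ((F * unitOf (-L) (-L) hM hM : G 2) : FormalMap 2) = -1 := by
          rw [Units.val_mul, linPart_mul, linPart_unitOf, ← hL, mul_neg, hLL]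
        have h8 := (h1 _ hlin).snoc (unitOf_sq hM)
        rwa [mul_assoc, unitOf_sq, mul_one] at h8
      · exact (tri_case h3 h4 h5 F hdet ht hsc).succ

end Pool.Agent.L7h57.RV
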