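import Pool.Agent.L7h57.RV.Lema
import Pool.Agent.L7h57.RV.N2
import Pool.Agent.L7h12.RV.Deg3
import Pool.Agent.L7h6.RV.Dv
import Pool.Agent.L7h6.RV.Lim
import Pool.Agent.L7h6.RV.Nb
import Pool.Agent.L7h6.RV.Sur
import Pool.Agent.L7h6.RV.Gen
import Pool.Agent.L7h60.RV.Com
import Pool.Agent.L7h60.RV.Step
import Pool.Agent.L7h99.RV.Prop
import Pool.Agent.L7h99.RV.Thm
import Pool.Agent.L7h99.RV.Two
import Pool.Agent.L7h36.RV.Lemc

/-!
# Project RV: dimension two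

Authors: helper57 (plan, BASE, LEMA, N2), helper6 (LIM, GEN, NB, DV, SUR), helper12 (CAU, MU, LS,
DEG3), helper36 (LEMC, NIN, D4), helper60 (COM, GRC, STEP), helper93 (SYM3), helper99 (PROP, THM,
NI2, L2A, L2B).
-/

namespace Pool.Agent.L7h57.RV

open Pool.Agent

theorem gen : S_GEN :=
  L7h6.RV.s_GEN (L7h60.RV.s_STEP L7h60.RV.s_COM L7h60.RV.s_GRC) L7h6.RV.s_LIM

theorem thm : S_THM := L7h99.RV.s_THM L7h99.RV.s_PROP

theorem base : S_BASE := s_BASE (L7h6.RV.s_SUR L7h6.RV.s_NB L7h6.RV.s_DV) L7h12.RV.s_DEG3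

theorem lema : S_LEMA := s_LEMA gen base (L7h93.RV.s_SYM3 L7h60.RV.s_GRC)

theorem lemc : S_LEMC := L7h36.RV.s_LEMC gen L7h6.RV.s_DV

/-- dimension two -/
theorem n2 : S_N2 := s_N2 lema lemc thm L7h99.RV.s_NI2 L7h99.RV.s_L2A L7h99.RV.s_L2B

end Pool.Agent.L7h57.RV
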