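import Mathlib

/-!
# Project RV: a complex matrix with distinct eigenvalues is diagonalisable
-/

namespace Pool.Agent.L7h57.RV

open Polynomial

theorem exists_diag {n : ℕ} (L : Matrix (Fin n) (Fin n) ℂ) (h : L.charpoly.roots.Nodup) :
    ∃ (l : Fin n → ℂ) (g g' : Matrix (Fin n) (Fin n) ℂ), g * g' = 1 ∧ g' * g = 1 ∧
      Function.Injective l ∧ L = g * Matrix.diagonal l * g' := by
  classical
  have hcard : L.charpoly.roots.card = n := by
    have h1 : L.charpoly.roots.card = L.charpoly.natDegree :=
      (IsAlgClosed.splits L.charpoly).natDegree_eq_card_roots.symm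
    rw [h1, Matrix.charpoly_natDegree_eq_dim, Fintype.card_fin]
  obtain ⟨lst, hlst⟩ := Quot.exists_rep L.charpoly.roots
  have hlen : lst.length = n := by
    rw [← hcard, ← hlst]; rfl
  have hnd : lst.Nodup := by
    rw [← hlst] at h; exact h
  subst hlen
  set l : Fin lst.length → ℂ := fun i => lst.get i with hl
  have hinj : Function.Injective l := List.nodup_iff_injective_get.1 hnd
  have hroot : ∀ i, L.charpoly.IsRoot (l i) := by
    intro i
    have hm : l i ∈ L.charpoly.roots := by
      rw [← hlst]
      exact List.get_mem lst i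
    exact (Polynomial.mem_roots'.1 hm).2
  have hev : ∀ i, ∃ v : Fin lst.length → ℂ, v ≠ 0 ∧ L.mulVec v = l i • v := by
    intro i
    have h1 : (Matrix.scalar _ (l i) - L).det = 0 := by
      rw [← Matrix.eval_charpoly]
      exact hroot i
    obtain ⟨v, hv, hv2⟩ := Matrix.exists_mulVec_eq_zero_iff.2 h1
    refine ⟨v, hv, ?_⟩
    rw [Matrix.sub_mulVec, sub_eq_zero] at hv2
    rw [← hv2]
    ext j
    simp [Matrix.scalar_apply, Matrix.mulVec_diagonal]
  choose v hv0 hv using hev
  have hli : LinearIndependent ℂ v := by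
    apply Module.End.eigenvectors_linearIndependent' (Matrix.toLin' L) l hinj v
    intro i
    refine ⟨?_, hv0 i⟩
    rw [Module.End.mem_eigenspace_iff, Matrix.toLin'_apply]
    exact hv i
  set g : Matrix (Fin lst.length) (Fin lst.length) ℂ := Matrix.of (fun i j => v j i) with hg
  have hgu : IsUnit g := by
    have h1 : IsUnit (g.transpose) := by
      apply Matrix.linearIndependent_rows_iff_isUnit.1
      exact hli
    exact (Matrix.isUnit_transpose _).1 h1
  have hLg : L * g = g * Matrix.diagonal l := by
    ext i j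
    rw [Matrix.mul_diagonal, Matrix.mul_apply]
    have := congrFun (hv j) i
    simp only [Matrix.mulVec, dotProduct, Pi.smul_apply, smul_eq_mul] at this
    simp only [hg, Matrix.of_apply]
    rw [this, mul_comm]
  have hd : IsUnit g.det := (Matrix.isUnit_iff_isUnit_det _).1 hgu
  refine ⟨l, g, g⁻¹, Matrix.mul_nonsing_inv _ hd, Matrix.nonsing_inv_mul _ hd, hinj, ?_⟩
  rw [← hLg, Matrix.mul_assoc, Matrix.mul_nonsing_inv _ hd, Matrix.mul_one]

end Pool.Agent.L7h57.RV
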