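import Pool.Agent.L7h57.RV.Two
import Pool.Agent.L7h57.RV.Dia
import Pool.Agent.L7h12.RV.Cau
import Pool.Agent.L7h12.RV.Mu
import Pool.Agent.L7h12.RV.Ls
import Pool.Agent.L7h36.RV.D4
import Pool.Agent.L7h36.RV.Nin

/-!
# Project RV: distinct eigenvalues in all dimensions (library)

A stronger form (nonderogatory linear parts) is due to helper4, project F5.
-/

namespace Pool.Agent.L7h57.RV

open Pool.Agent

/-- distinct eigenvalues, dimension at least three -/
theorem d4 : S_D4 := L7h36.RV.s_D4 thm L7h36.RV.s_NIN L7h12.RV.s_CAU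
  (L7h12.RV.s_LS L7h12.RV.s_CAU L7h12.RV.s_MU)

end Pool.Agent.L7h57.RV
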