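import Pool.Agent.L7h57.RV.Ut

/-!
# Project RV, part BASE
-/

namespace Pool.Agent.L7h57.RV

open MvPolynomial Pool.Helper89.Rev

variable {n : ℕ}

theorem br_smul_left (s : ℂ) (C D : VF n) : br (s • C) D = s • br C D := by
  funext i
  simp only [br, Pi.smul_apply, Derivation.map_smul, Finset.smul_sum, smul_sub, smul_mul_assoc, mul_smul_comm]

theorem br_smul_right (s : ℂ) (C D : VF n) : br C (s • D) = s • br C D := by
  funext i
  simp only [br, Pi.smul_apply, Derivation.map_smul, Finset.smul_sum, smul_sub, smul_mul_assoc, mul_smul_comm]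

theorem homT_smul {d : ℕ} (s : ℂ) {C : VF n} (h : HomT d C) : HomT d (s • C) := fun i => by
  rw [Pi.smul_apply, MvPolynomial.smul_eq_C_mul]
  exact (h i).C_mul s

theorem homT_add {d : ℕ} {C D : VF n} (h : HomT d C) (h' : HomT d D) : HomT d (C + D) :=
  fun i => (h i).add (h' i)

theorem homT_xE : HomT 2 xE := fun i => (isHomogeneous_X ℂ 0).mul (isHomogeneous_X ℂ i)

theorem homT_yE : HomT 2 yE := fun i => (isHomogeneous_X ℂ 1).mul (isHomogeneous_X ℂ i)

theorem s_BASE (h1 : S_SUR) (h2 : S_DEG3) : S_BASE := by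
  obtain ⟨δ, hδ, hsur⟩ := h1
  intro R hR
  obtain ⟨c, hc, A, B, hA, hB, nA, nB, hbr⟩ := h2 δ hδ R hR
  obtain ⟨s, hs⟩ : ∃ s : ℂ, c⁻¹ = s * s := IsAlgClosed.exists_eq_mul_self _
  have hs0 : s ≠ 0 := by
    rintro rfl
    rw [mul_zero] at hs
    exact inv_ne_zero hc hs
  refine ⟨s • (xE + A), s • (yE + B), homT_smul s (homT_add homT_xE hA),
    homT_smul s (homT_add homT_yE hB), ?_, ?_⟩
  · rw [br_smul_left, br_smul_right, hbr, smul_smul, smul_smul, ← hs, inv_mul_cancel₀ hc, one_smul]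
  · intro d hd w hw
    obtain ⟨D, D', hD, hD', rfl⟩ := hsur A B hA hB nA nB d hd w hw
    refine ⟨s⁻¹ • D, s⁻¹ • D', homT_smul _ hD, homT_smul _ hD', ?_⟩
    rw [br_smul_left, br_smul_right, br_smul_left, br_smul_right, smul_smul, smul_smul,
      mul_inv_cancel₀ hs0, one_smul, one_smul]

end Pool.Agent.L7h57.RV
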