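import Pool.Agent.L7h57.RV.Ut

/-!
# Project RV, second part: linear part `1` or `-1` in dimension three, five involutions

This completes `k(n) ≤ 5` for all `n` (helper4: `n ≥ 4`, and `n = 3` but for these linear parts).
-/

namespace Pool.Agent.L7h57.RV

open MvPolynomial Pool.Helper89.Rev

/-- `x_j E` in dimension three -/
noncomputable def tE (j : Fin 3) : VF 3 := fun i => X j * X i

/-- the sum of the absolute values of the coefficients of a polynomial -/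
noncomputable def nr3 (p : MvPolynomial (Fin 3) ℂ) : ℝ := ∑ m ∈ p.support, ‖coeff m p‖

/-- the sum of the absolute values of the coefficients -/
noncomputable def nrm3 (P : VF 3) : ℝ := ∑ i, nr3 (P i)

/-- the reflection `diag(1,1,-1)` -/
def sg : Matrix (Fin 3) (Fin 3) ℂ := Matrix.diagonal ![1, 1, -1]

/-- base fields -/
noncomputable def P0 : VF 3 := tE 0 + tE 2

/-- [NB3] (60 lines) as `S_NB` (L7h6/RV/Nb.lean) in dimension three; and the reflection preserves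
the norm. -/
def S_NB3 : Prop := (∀ (d : ℕ) (A D : VF 3), HomT 2 A → HomT d D →
  nrm3 (br A D) ≤ (d + 2) * nrm3 A * nrm3 D) ∧ ∀ D : VF 3, nrm3 (act sg sg D) = nrm3 D

/-- [DV3] (180 lines) as `S_DV` (L7h6/RV/Dv.lean) in dimension three: for `D` of degree `d - 1`,
`br (tE j) D = D_j E - (d-2) x_j D`; for `h` of degree `d - 2`, `br (tE j) (h E) = -(d-3) x_j h E`.
`w = Σ x_j u_j` (monomials divisible by `x_0`, then `x_1`, then `x_2`; `Σ nrm u_j ≤ nrm w`),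
`q = (Σ_j (u_j)_j)/(d-2) = Σ x_j h_j`, `B_j w = -u_j/(d-2) - h_j E/(d-3)`;
`Σ nrm (B_j w) ≤ nrm w/(d-2) · (1 + 3/(d-3)) ≤ 4 nrm w/(d-2)`. -/
def S_DV3 : Prop := ∀ d : ℕ, 4 ≤ d → ∃ B : Fin 3 → VF 3 →ₗ[ℂ] VF 3, ∀ w : VF 3, HomT d w →
  (∀ j, HomT (d - 1) (B j w)) ∧ ∑ j, br (tE j) (B j w) = w ∧
    ∑ j, nrm3 (B j w) ≤ 4 / ((d : ℝ) - 2) * nrm3 w

/-- [SUR3] (100 lines; hypotheses `S_NB3`, `S_DV3`), as `S_SUR` (L7h6/RV/Sur.lean).  `δ = 1/20`.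
`act sg sg P0 = tE 0 - tE 2`.  `D1 = (B_0 w + B_2 w)/2`, `D3 = (B_0 w - B_2 w)/2`, `D2 = B_1 w`;
the perturbation has norm `≤ (d+1) δ (nrm D1 + nrm D2 + nrm D3) ≤ (d+1) δ 4/(d-2) nrm w ≤ 1/2 nrm w`. -/
def S_SUR3 : Prop := ∃ δ : ℝ, 0 < δ ∧ ∀ A A' : VF 3, HomT 2 A → HomT 2 A' → nrm3 A < δ →
  nrm3 A' < δ → ∀ d : ℕ, 4 ≤ d → ∀ w : VF 3, HomT d w → ∃ D1 D2 D3 : VF 3,
    HomT (d - 1) D1 ∧ HomT (d - 1) D2 ∧ HomT (d - 1) D3 ∧
    w = br (P0 + A) D1 + br (tE 1 + A') D2 + br (act sg sg (P0 + A)) D3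

/-- [LIN3] (100 lines) the linearised equation in degree three.  `act sg sg` commutes with the
bracket: `br (act s s C) (act s s D) = act s s (br C D)`.  For `w` of degree 3 write
`w = Σ x_j u_j`, `q = Σ_j (u_j)_j`, `B_j = -u_j + ½ q ∂_j` (the field with the only component `½ q`
at `j`): with `br (tE j) D = D_j E - x_j D` (degree 2) one gets `Σ_j br (tE j) B_j = w`.  With
`D1 = (B_0 + B_2)/2`, `D3 = (B_0 - B_2)/2`:
`br (tE 0) B_0 + br (tE 2) B_2 = br P0 D1 + br (s P0) D3` and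
`br (s P0) D3 = s (br P0 (s D3)) = br P0 (s D3) - (E - s E)`, `E = br P0 (s D3)`.  And
`br (tE 1) B_1 = br (-B_1) (tE 1)`. -/
def S_LIN3 : Prop := ∀ w : VF 3, HomT 3 w → ∃ A A' E : VF 3, HomT 2 A ∧ HomT 2 A' ∧ HomT 3 E ∧
  w = br P0 A' + br A (tE 1) + (E - act sg sg E)

/-- [OPEN] (60 lines) linear onto plus quadratic is open at `0`
(`HasStrictFDerivAt.map_nhds_eq_of_surj`, compare L7h12/RV/Deg3.lean). -/
def S_OPEN : Prop := ∀ (N M : ℕ) (L : (Fin N → ℂ) →ₗ[ℂ] (Fin M → ℂ))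
  (Q : (Fin N → ℂ) →ₗ[ℂ] (Fin N → ℂ) →ₗ[ℂ] (Fin M → ℂ)), Function.Surjective L →
  ∀ ε : ℝ, 0 < ε → ∀ z : Fin M → ℂ, ∃ c : ℂ, c ≠ 0 ∧ ∃ x : Fin N → ℂ, ‖x‖ < ε ∧
    L x + Q x x = c • z

/-- [DEG33] (150 lines; hypotheses `S_LIN3`, `S_OPEN`).  `br (P0 + A) (tE 1 + A') + (E - s E)` is
(`br P0 (tE 1) = 0`) linear onto (`S_LIN3`) plus quadratic in `(A, A', E)` in the finite
dimensional space `HomV 3 2 × HomV 3 2 × HomV 3 3` with values in `HomV 3 3`; take bases; `nrm3` is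
at most a constant times the norm of the coordinates. -/
def S_DEG33 : Prop := ∀ δ : ℝ, 0 < δ → ∀ R : VF 3, HomT 3 R → ∃ c : ℂ, c ≠ 0 ∧ ∃ A A' E : VF 3,
  HomT 2 A ∧ HomT 2 A' ∧ HomT 3 E ∧ nrm3 A < δ ∧ nrm3 A' < δ ∧
    br (P0 + A) (tE 1 + A') + (E - act sg sg E) = c • R

/-- [BASE3] (helper57; from `S_SUR3`, `S_DEG33`) -/
def S_BASE3 : Prop := ∀ R : VF 3, HomT 3 R → ∃ P Q E : VF 3, HomT 2 P ∧ HomT 2 Q ∧ HomT 3 E ∧
  br P Q + (E - act sg sg E) = R ∧ ∀ d : ℕ, 4 ≤ d → ∀ w : VF 3, HomT d w → ∃ D1 D2 D3 : VF 3,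
    HomT (d - 1) D1 ∧ HomT (d - 1) D2 ∧ HomT (d - 1) D3 ∧
    w = br P D1 + br Q D2 + br (act sg sg P) D3

/-- [LEM3] (helper57; from `S_GEN`, `S_BASE3`, `S_SYM3`) -/
def S_LEM3 : Prop := ∀ F : G 3, (linPart (F : FormalMap 3) = 1 ∨ linPart (F : FormalMap 3) = -1) →
  ProdInv 5 F

end Pool.Agent.L7h57.RV
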