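import Pool.Agent.L7h57.RV.Base
import Pool.Agent.L7h57.RV.Stm2

/-!
# Project RV, part BASE3
-/

namespace Pool.Agent.L7h57.RV

open MvPolynomial Pool.Helper89.Rev

variable {n : ℕ}

theorem act_smul (g g' : Matrix (Fin n) (Fin n) ℂ) (c : ℂ) (P : VF n) :
    act g g' (c • P) = c • act g g' P := (actL g g').map_smul c P

theorem act_neg' (g g' : Matrix (Fin n) (Fin n) ℂ) (P : VF n) :
    act g g' (-P) = - act g g' P := (actL g g').map_neg P

theorem homT_tE (j : Fin 3) : HomT 2 (tE j) := fun i =>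
  (isHomogeneous_X ℂ j).mul (isHomogeneous_X ℂ i)

theorem homT_P0 : HomT 2 P0 := homT_add (homT_tE 0) (homT_tE 2)

theorem s_BASE3 (h1 : S_SUR3) (h2 : S_DEG33) : S_BASE3 := by
  obtain ⟨δ, hδ, hsur⟩ := h1
  intro R hR
  obtain ⟨c, hc, A, B, E, hA, hB, hE, nA, nB, hbr⟩ := h2 δ hδ R hR
  obtain ⟨s, hs⟩ : ∃ s : ℂ, c⁻¹ = s * s := IsAlgClosed.exists_eq_mul_self _
  have hs0 : s ≠ 0 := by
    rintro rfl
    rw [mul_zero] at hs
    exact inv_ne_zero hc hs
  refine ⟨s • (P0 + A), s • (tE 1 + B), (s * s) • E, homT_smul s (homT_add homT_P0 hA),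
    homT_smul s (homT_add (homT_tE 1) hB), homT_smul _ hE, ?_, ?_⟩
  · rw [br_smul_left, br_smul_right, smul_smul, act_smul, ← smul_sub, ← smul_add, hbr,
      smul_smul, ← hs, inv_mul_cancel₀ hc, one_smul]
  · intro d hd w hw
    obtain ⟨D1, D2, D3, hD1, hD2, hD3, rfl⟩ := hsur A B hA hB nA nB d hd w hw
    refine ⟨s⁻¹ • D1, s⁻¹ • D2, s⁻¹ • D3, homT_smul _ hD1, homT_smul _ hD2, homT_smul _ hD3, ?_⟩
    rw [act_smul, br_smul_left, br_smul_right, br_smul_left, br_smul_right, br_smul_left,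
      br_smul_right]
    simp only [smul_smul, mul_inv_cancel₀ hs0, one_smul]

end Pool.Agent.L7h57.RV
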