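import Pool.Agent.L7h57.RV.Base
import Pool.Agent.L7h93.RV.Sym3

/-!
# Project RV, part LEMA: linear part `-1` in dimension two
-/

namespace Pool.Agent.L7h57.RV

open MvPolynomial Pool.Helper89.Rev

theorem act_neg_two {n : ℕ} {P : VF n} (hP : HomT 2 P) : act (-1) (-1) P = -P := by
  funext i
  have h : ∀ j, C ((-1 : Matrix (Fin n) (Fin n) ℂ) i j) * aeval (lin (-1)) (P j) =
      if i = j then - P j else 0 := by
    intro j
    rw [Pool.Agent.L7h93.RV.aeval_neg (hP j)]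
    by_cases hij : i = j
    · subst hij
      rw [if_pos rfl, Matrix.neg_apply, Matrix.one_apply_eq, map_neg, map_one]
      ring
    · rw [if_neg hij, Matrix.neg_apply, Matrix.one_apply_ne hij, neg_zero, map_zero, zero_mul]
  unfold act
  rw [Finset.sum_congr rfl fun j _ => h j, Finset.sum_ite_eq, if_pos (Finset.mem_univ _)]
  rfl

theorem conj_mone {n : ℕ} {u : G n} (hu : u ∈ K n 2) : mone n * u * mone n ∈ K n 2 ∧
    gr 2 ((mone n * u * mone n : G n) : FormalMap n) = - gr 2 (u : FormalMap n) := by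
  have h1 : mone n * u * (mone n)⁻¹ ∈ K n 2 := (K_normal 2).conj_mem u hu (mone n)
  have h2 := gr_conj (le_refl 2) (mone n) hu
  rw [mone_inv] at h1 h2
  refine ⟨h1, ?_⟩
  rw [h2, linPart_mone]
  exact act_neg_two (gr_hom 2 _)

theorem exists_sym {n : ℕ} {A : VF n} (hA : HomT 2 A) : ∃ c ∈ K n 2,
    mone n * c * mone n = c⁻¹ ∧ gr 2 (c : FormalMap n) = A := by
  obtain ⟨v, hv, hgv⟩ := exists_gr (le_refl 2) (homT_smul (1 / 2 : ℂ) hA)
  have hvi := (K n 2).inv_mem hv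
  obtain ⟨m1, g1⟩ := conj_mone hvi
  have e : v * mone n * v⁻¹ * mone n = v * (mone n * v⁻¹ * mone n) := by group
  refine ⟨v * (mone n * v⁻¹ * mone n), (K n 2).mul_mem hv m1, ?_, ?_⟩
  · have hi := mone_inv n
    have hs := mone_sq n
    calc mone n * (v * (mone n * v⁻¹ * mone n)) * mone n =
        mone n * v * mone n * v⁻¹ * (mone n * mone n) := by group
      _ = mone n * v * mone n * v⁻¹ := by rw [hs, mul_one]
      _ = (mone n)⁻¹ * v * (mone n)⁻¹ * v⁻¹ := by rw [hi]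
      _ = (v * (mone n * v⁻¹ * mone n))⁻¹ := by group
  · rw [gr_mul (le_refl 2) hv m1, g1, gr_inv (le_refl 2) hv, hgv, neg_neg, ← add_smul]
    norm_num

theorem s_LEMA (h1 : S_GEN) (h2 : S_BASE) (h3 : S_SYM3) : S_LEMA := by
  intro F hF
  have hεε := mone_sq 2
  have hεi := mone_inv 2
  -- the unipotent part
  have hΦ0 : F * mone 2 ∈ K 2 2 := by
    rw [mem_K, cong_two_iff, Units.val_mul, linPart_mul, hF, linPart_mone, linPart_one]
    simp
  obtain ⟨u, hu, hgu⟩ := exists_gr (le_refl 2)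
    (homT_smul (-(1 / 2) : ℂ) (gr_hom 2 ((F * mone 2 : G 2) : FormalMap 2)))
  obtain ⟨m1, g1⟩ := conj_mone ((K 2 2).inv_mem hu)
  set F1 : G 2 := u * F * u⁻¹ with hF1
  have eΦ : F1 * mone 2 = u * (F * mone 2) * (mone 2 * u⁻¹ * mone 2) := by
    rw [hF1]
    calc u * F * u⁻¹ * mone 2 = u * F * 1 * u⁻¹ * mone 2 := by rw [mul_one]
      _ = u * F * (mone 2 * mone 2) * u⁻¹ * mone 2 := by rw [hεε]
      _ = _ := by group
  have hΦ3 : F1 * mone 2 ∈ K 2 3 := by
    rw [eΦ]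
    apply mem_K_succ (le_refl 2) ((K 2 2).mul_mem ((K 2 2).mul_mem hu hΦ0) m1)
    rw [gr_mul (le_refl 2) ((K 2 2).mul_mem hu hΦ0) m1, gr_mul (le_refl 2) hu hΦ0, g1,
      gr_inv (le_refl 2) hu, hgu, neg_neg]
    have : ∀ x : VF 2, -(1 / 2 : ℂ) • x + x + -(1 / 2 : ℂ) • x = 0 := by
      intro x
      module
    exact this _
  obtain ⟨P, Q, hP, hQ, hbr, hsur⟩ := h2 ((2 : ℂ) • gr 3 ((F1 * mone 2 : G 2) : FormalMap 2))
    (homT_smul 2 (gr_hom 3 _))
  obtain ⟨c1, k1, e1, r1⟩ := exists_sym hQ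
  obtain ⟨c3, k3, e3, r3⟩ := exists_sym hP
  obtain ⟨c2, k2, e2, r2⟩ := exists_sym (homT_add hQ hP)
  obtain ⟨z3, gz⟩ := h3 2 c1 c2 c3 k1 k2 k3 e1 e2 e3 (by rw [r1, r2, r3])
  have gz' : gr 3 ((c1 * c2⁻¹ * c3 : G 2) : FormalMap 2) =
      gr 3 ((F1 * mone 2 : G 2) : FormalMap 2) := by
    rw [r3, r1, hbr] at gz
    exact smul_right_injective _ (two_ne_zero : (2 : ℂ) ≠ 0) gz
  have hinv : ∀ c : G 2, mone 2 * c * mone 2 = c⁻¹ → (c * mone 2) * (c * mone 2) = 1 := by
    intro c hc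
    calc (c * mone 2) * (c * mone 2) = c * (mone 2 * c * mone 2) := by group
      _ = 1 := by rw [hc, mul_inv_cancel]
  apply ProdInv.of_conj (u := u)
  rw [← hF1]
  have hprod : (List.ofFn ![c1 * mone 2, c2 * mone 2, c3 * mone 2]).prod =
      c1 * c2⁻¹ * c3 * mone 2 := by
    have e : (List.ofFn ![c1 * mone 2, c2 * mone 2, c3 * mone 2]).prod =
        c1 * (mone 2 * c2 * mone 2) * c3 * mone 2 := by
      simp [List.ofFn_succ, mul_assoc]
    rw [e, e2]
  apply h1 2 3 ![c1 * mone 2, c2 * mone 2, c3 * mone 2] _ 4 (by norm_num) F1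
  · rw [hprod]
    have e : F1 * (c1 * c2⁻¹ * c3 * mone 2)⁻¹ = (F1 * mone 2) * (c1 * c2⁻¹ * c3)⁻¹ := by
      rw [mul_inv_rev, hεi]
      group
    rw [e]
    apply mem_K_succ (by norm_num) ((K 2 3).mul_mem hΦ3 ((K 2 3).inv_mem z3))
    rw [gr_mul (by norm_num) hΦ3 ((K 2 3).inv_mem z3), gr_inv (by norm_num) z3, gz', add_neg_cancel]
  · intro d hd w hw
    obtain ⟨D, D', hD, hD', rfl⟩ := hsur d hd w hw
    have hk2i := (K 2 2).inv_mem k2
    have hk3i := (K 2 2).inv_mem k3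
    have hcl : ∀ j, ![c1 * mone 2, c2 * mone 2, c3 * mone 2] j ∈
        Subgroup.closure (Set.range ![c1 * mone 2, c2 * mone 2, c3 * mone 2]) :=
      fun j => Subgroup.subset_closure ⟨j, rfl⟩
    apply Submodule.add_mem
    · apply Submodule.subset_span
      refine Or.inr ⟨hd, c1 * c2⁻¹, ?_, (K 2 2).mul_mem k1 hk2i, (-1 : ℂ) • D, homT_smul _ hD, ?_⟩
      · have h4 := (Subgroup.closure _).mul_mem (hcl 0) (hcl 1)
        have e : ![c1 * mone 2, c2 * mone 2, c3 * mone 2] 0 *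
            ![c1 * mone 2, c2 * mone 2, c3 * mone 2] 1 = c1 * c2⁻¹ := by
          rw [← e2]
          change c1 * mone 2 * (c2 * mone 2) = _
          group
        rwa [e] at h4
      · rw [gr_mul (le_refl 2) k1 hk2i, gr_inv (le_refl 2) k2, r1, r2]
        have e : Q + -(Q + P) = (-1 : ℂ) • P := by module
        rw [e, br_smul_left, br_smul_right, smul_smul]
        norm_num
    · apply Submodule.subset_span
      refine Or.inr ⟨hd, c2 * c3⁻¹, ?_, (K 2 2).mul_mem k2 hk3i, D', hD', ?_⟩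
      · have h4 := (Subgroup.closure _).mul_mem (hcl 1) (hcl 2)
        have e : ![c1 * mone 2, c2 * mone 2, c3 * mone 2] 1 *
            ![c1 * mone 2, c2 * mone 2, c3 * mone 2] 2 = c2 * c3⁻¹ := by
          rw [← e3]
          change c2 * mone 2 * (c3 * mone 2) = _
          group
        rwa [e] at h4
      · rw [gr_mul (le_refl 2) k2 hk3i, gr_inv (le_refl 2) k3, r2, r3]
        have e : Q + P + -P = Q := by module
        rw [e]
  · intro j
    fin_cases j
    · exact hinv c1 e1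
    · exact hinv c2 e2
    · exact hinv c3 e3

end Pool.Agent.L7h57.RV
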