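import Pool.Agent.L7h57.RV.Base3
import Pool.Agent.L7h57.RV.Lema

/-!
# Project RV, part LEM3: linear part `1` or `-1` in dimension three, five involutions
-/

namespace Pool.Agent.L7h57.RV

open MvPolynomial Pool.Helper89.Rev

theorem sg_sq : sg * sg = 1 := by
  unfold sg
  rw [Matrix.diagonal_mul_diagonal, ← Matrix.diagonal_one]
  congr 1
  funext i
  fin_cases i <;> simp

/-- the reflection as a formal map -/
noncomputable def rs : G 3 := unitOf sg sg sg_sq sg_sq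

theorem rs_sq : rs * rs = 1 := unitOf_sq sg_sq

theorem linPart_rs : linPart ((rs : G 3) : FormalMap 3) = sg := linPart_unitOf _ _ _ _

theorem conj_mone3 {n : ℕ} {u : G n} (hu : u ∈ K n 3) : mone n * u * mone n ∈ K n 3 ∧
    gr 3 ((mone n * u * mone n : G n) : FormalMap n) = gr 3 (u : FormalMap n) := by
  have h1 : mone n * u * (mone n)⁻¹ ∈ K n 3 := (K_normal 3).conj_mem u hu (mone n)
  have h2 := gr_conj (by norm_num : 2 ≤ 3) (mone n) hu
  rw [mone_inv] at h1 h2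
  refine ⟨h1, ?_⟩
  rw [h2, linPart_mone]
  exact Pool.Agent.L7h93.RV.act_neg (gr_hom 3 _)

/-- the core: `Φ ∈ K_2` agrees modulo `K_4` with a product of conjugates -/
theorem core3 (h2 : S_BASE3) (h3 : S_SYM3) (Φ : G 3) (hΦ : Φ ∈ K 3 2) :
    ∃ c1 c2 c3 v : G 3, c1 ∈ K 3 2 ∧ c2 ∈ K 3 2 ∧ c3 ∈ K 3 2 ∧ v ∈ K 3 3 ∧
      mone 3 * c1 * mone 3 = c1⁻¹ ∧ mone 3 * c2 * mone 3 = c2⁻¹ ∧ mone 3 * c3 * mone 3 = c3⁻¹ ∧
      Φ * (c1 * c2⁻¹ * c3 * (mone 3 * (v * rs * v⁻¹ * rs) * mone 3))⁻¹ ∈ K 3 4 ∧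
      ∀ d : ℕ, 4 ≤ d → ∀ w : VF 3, HomT d w → ∃ D1 D2 D3 : VF 3,
        HomT (d - 1) D1 ∧ HomT (d - 1) D2 ∧ HomT (d - 1) D3 ∧
        w = br (gr 2 ((c1 * c2⁻¹ : G 3) : FormalMap 3)) D1 +
          br (gr 2 ((c2 * c3⁻¹ : G 3) : FormalMap 3)) D2 +
          br (act sg sg (gr 2 ((c1 * c2⁻¹ : G 3) : FormalMap 3))) D3 := by
  -- the symmetric element `b`
  obtain ⟨b, kb, eb, gb⟩ := exists_sym (n := 3)
    (homT_smul (1 / 2 : ℂ) (gr_hom 2 (Φ : FormalMap 3)))
  have kbi := (K 3 2).inv_mem kb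
  set Φ' : G 3 := b⁻¹ * Φ * b⁻¹ with hΦ'
  have hΦ3 : Φ' ∈ K 3 3 := by
    apply mem_K_succ (le_refl 2) ((K 3 2).mul_mem ((K 3 2).mul_mem kbi hΦ) kbi)
    rw [gr_mul (le_refl 2) ((K 3 2).mul_mem kbi hΦ) kbi, gr_mul (le_refl 2) kbi hΦ,
      gr_inv (le_refl 2) kb, gb]
    have : ∀ x : VF 3, -((1 / 2 : ℂ) • x) + x + -((1 / 2 : ℂ) • x) = 0 := by
      intro x
      module
    exact this _
  obtain ⟨P, Q, E, hP, hQ, hE, hbr, hsur⟩ := h2 ((2 : ℂ) • gr 3 (Φ' : FormalMap 3))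
    (homT_smul 2 (gr_hom 3 _))
  obtain ⟨c1, k1, e1, r1⟩ := exists_sym hQ
  obtain ⟨c3, k3, e3, r3⟩ := exists_sym hP
  obtain ⟨c2, k2, e2, r2⟩ := exists_sym (homT_add hQ hP)
  obtain ⟨z3, gz⟩ := h3 3 c1 c2 c3 k1 k2 k3 e1 e2 e3 (by rw [r1, r2, r3])
  rw [r3, r1] at gz
  obtain ⟨v, kv, gv⟩ := exists_gr (by norm_num : 2 ≤ 3) (homT_smul (1 / 2 : ℂ) hE)
  have hrsi : rs⁻¹ = rs := inv_eq_of_mul_eq_one_left rs_sq
  obtain ⟨y3, gy⟩ := gr_commutator (by norm_num : 2 ≤ 3) kv rs_sq linPart_rs gv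
  rw [hrsi] at y3 gy
  obtain ⟨y3', gy'⟩ := conj_mone3 y3
  rw [gy, act_smul, ← smul_sub] at gy'
  have hεε := mone_sq 3
  have hεi := mone_inv 3
  have hb : ∀ c : G 3, mone 3 * c * mone 3 = c⁻¹ → mone 3 * (b * c * b) * mone 3 =
      (b * c * b)⁻¹ := by
    intro c hc
    calc mone 3 * (b * c * b) * mone 3 =
        (mone 3 * b * mone 3) * ((mone 3)⁻¹ * c * (mone 3)⁻¹) * (mone 3 * b * mone 3) := by group
      _ = b⁻¹ * c⁻¹ * b⁻¹ := by rw [hεi, eb, hc]
      _ = (b * c * b)⁻¹ := by group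
  have kc : ∀ c : G 3, c ∈ K 3 2 → b * c * b ∈ K 3 2 := fun c hc =>
    (K 3 2).mul_mem ((K 3 2).mul_mem kb hc) kb
  have gc : ∀ c : G 3, c ∈ K 3 2 → gr 2 ((b * c * b : G 3) : FormalMap 3) =
      gr 2 (Φ : FormalMap 3) + gr 2 (c : FormalMap 3) := by
    intro c hc
    rw [gr_mul (le_refl 2) ((K 3 2).mul_mem kb hc) kb, gr_mul (le_refl 2) kb hc, gb]
    have : ∀ x y : VF 3, (1 / 2 : ℂ) • x + y + (1 / 2 : ℂ) • x = x + y := by
      intro x y
      module
    exact this _ _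
  refine ⟨b * c1 * b, b * c2 * b, b * c3 * b, v, kc _ k1, kc _ k2, kc _ k3, kv, hb _ e1, hb _ e2,
    hb _ e3, ?_, ?_⟩
  · set y : G 3 := mone 3 * (v * rs * v⁻¹ * rs) * mone 3 with hy
    set z : G 3 := c1 * c2⁻¹ * c3 with hz
    have e : Φ * (b * c1 * b * (b * c2 * b)⁻¹ * (b * c3 * b) * y)⁻¹ =
        b * (Φ' * (b * y⁻¹ * b⁻¹) * z⁻¹) * b⁻¹ := by
      rw [hΦ', hz]
      group
    rw [e]
    apply (K_normal 4).conj_mem
    have y3i := (K 3 3).inv_mem y3'
    have yb3 : b * y⁻¹ * b⁻¹ ∈ K 3 3 := (K_normal 3).conj_mem _ y3i b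
    have gyb : gr 3 ((b * y⁻¹ * b⁻¹ : G 3) : FormalMap 3) =
        -((1 / 2 : ℂ) • (E - act sg sg E)) := by
      rw [gr_conj (by norm_num : 2 ≤ 3) b y3i, gr_inv (by norm_num : 2 ≤ 3) y3', gy',
        linPart_of_mem_K kb, linPart_of_mem_K kbi, act_one]
    apply mem_K_succ (by norm_num) ((K 3 3).mul_mem ((K 3 3).mul_mem hΦ3 yb3) ((K 3 3).inv_mem z3))
    rw [gr_mul (by norm_num) ((K 3 3).mul_mem hΦ3 yb3) ((K 3 3).inv_mem z3),
      gr_mul (by norm_num) hΦ3 yb3, gr_inv (by norm_num) z3, gyb]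
    have gz' : gr 3 (z : FormalMap 3) = (1 / 2 : ℂ) • br P Q := by
      rw [← gz, smul_smul]
      norm_num
    have gΦ : gr 3 (Φ' : FormalMap 3) = (1 / 2 : ℂ) • (br P Q + (E - act sg sg E)) := by
      rw [hbr, smul_smul]
      norm_num
    rw [gz', gΦ]
    module
  · intro d hd w hw
    obtain ⟨D1, D2, D3, hD1, hD2, hD3, rfl⟩ := hsur d hd w hw
    have g12 : gr 2 ((b * c1 * b * (b * c2 * b)⁻¹ : G 3) : FormalMap 3) = (-1 : ℂ) • P := by
      rw [gr_mul (le_refl 2) (kc _ k1) ((K 3 2).inv_mem (kc _ k2)), gr_inv (le_refl 2) (kc _ k2),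
        gc _ k1, gc _ k2, r1, r2]
      module
    have g23 : gr 2 ((b * c2 * b * (b * c3 * b)⁻¹ : G 3) : FormalMap 3) = Q := by
      rw [gr_mul (le_refl 2) (kc _ k2) ((K 3 2).inv_mem (kc _ k3)), gr_inv (le_refl 2) (kc _ k3),
        gc _ k2, gc _ k3, r2, r3]
      module
    refine ⟨(-1 : ℂ) • D1, D2, (-1 : ℂ) • D3, homT_smul _ hD1, hD2, homT_smul _ hD3, ?_⟩
    rw [g12, g23, act_smul, br_smul_left, br_smul_right, br_smul_left, br_smul_right]
    simp only [smul_smul]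
    norm_num

theorem s_LEM3 (h1 : S_GEN) (h2 : S_BASE3) (h3 : S_SYM3) : S_LEM3 := by
  intro F hF
  have hεε := mone_sq 3
  have hεi := mone_inv 3
  have hrsi : rs⁻¹ = rs := inv_eq_of_mul_eq_one_left rs_sq
  -- a general statement for the last involution `l`
  have key : ∀ (Φ l q : G 3), Φ ∈ K 3 2 → l * l = 1 → q = mone 3 * rs * l →
      F = Φ * q → ProdInv 5 F := by
    intro Φ l q hΦ hl hq hFΦ
    obtain ⟨c1, c2, c3, v, k1, k2, k3, kv, e1, e2, e3, h4, hsur⟩ := core3 h2 h3 Φ hΦ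
    have hinv : ∀ c : G 3, mone 3 * c * mone 3 = c⁻¹ → (c * mone 3) * (c * mone 3) = 1 := by
      intro c hc
      calc (c * mone 3) * (c * mone 3) = c * (mone 3 * c * mone 3) := by group
        _ = 1 := by rw [hc, mul_inv_cancel]
    set t : Fin 5 → G 3 := ![c1 * mone 3, c2 * mone 3, c3 * mone 3, v * rs * v⁻¹, l] with ht
    have hprod : (List.ofFn t).prod =
        c1 * c2⁻¹ * c3 * (mone 3 * (v * rs * v⁻¹ * rs) * mone 3) * q := by
      have e : (List.ofFn t).prod =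
          c1 * (mone 3 * c2 * mone 3) * c3 * mone 3 * (v * rs * v⁻¹) * l := by
        rw [ht]
        simp [List.ofFn_succ, mul_assoc]
      rw [e, e2, hq]
      calc c1 * c2⁻¹ * c3 * mone 3 * (v * rs * v⁻¹) * l =
          c1 * c2⁻¹ * c3 * (mone 3 * (v * rs * v⁻¹) * 1) * (1 * l) := by group
        _ = c1 * c2⁻¹ * c3 * (mone 3 * (v * rs * v⁻¹) * (rs * (mone 3 * mone 3) * rs)) * (1 * l) := by
            rw [hεε, mul_one, mul_one, rs_sq, mul_one]
        _ = _ := by group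
    apply h1 3 5 t _ 4 (by norm_num) F
    · rw [hprod, hFΦ]
      have e : ∀ a : G 3, Φ * q * (a * q)⁻¹ = Φ * a⁻¹ := by
        intro a
        group
      rw [e]
      exact h4
    · intro d hd w hw
      obtain ⟨D1, D2, D3, hD1, hD2, hD3, rfl⟩ := hsur d hd w hw
      have hk2i := (K 3 2).inv_mem k2
      have hk3i := (K 3 2).inv_mem k3
      have hcl : ∀ j, t j ∈ Subgroup.closure (Set.range t) :=
        fun j => Subgroup.subset_closure ⟨j, rfl⟩
      have h12 : c1 * c2⁻¹ ∈ Subgroup.closure (Set.range t) := by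
        have h4 := (Subgroup.closure _).mul_mem (hcl 0) (hcl 1)
        have e : t 0 * t 1 = c1 * c2⁻¹ := by
          rw [← e2]
          change c1 * mone 3 * (c2 * mone 3) = _
          group
        rwa [e] at h4
      have h23 : c2 * c3⁻¹ ∈ Subgroup.closure (Set.range t) := by
        have h4 := (Subgroup.closure _).mul_mem (hcl 1) (hcl 2)
        have e : t 1 * t 2 = c2 * c3⁻¹ := by
          rw [← e3]
          change c2 * mone 3 * (c3 * mone 3) = _
          group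
        rwa [e] at h4
      have k12 : c1 * c2⁻¹ ∈ K 3 2 := (K 3 2).mul_mem k1 hk2i
      have h3c : t 3 * (c1 * c2⁻¹) * (t 3)⁻¹ ∈ Subgroup.closure (Set.range t) :=
        (Subgroup.closure _).mul_mem ((Subgroup.closure _).mul_mem (hcl 3) h12)
          ((Subgroup.closure _).inv_mem (hcl 3))
      have k3c : t 3 * (c1 * c2⁻¹) * (t 3)⁻¹ ∈ K 3 2 := (K_normal 2).conj_mem _ k12 (t 3)
      have kv2 : v ∈ K 3 2 := K_mono (by norm_num) kv
      have hl3 : linPart (t 3 : FormalMap 3) = sg := by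
        change linPart ((v * rs * v⁻¹ : G 3) : FormalMap 3) = sg
        rw [linPart_conj kv2, linPart_rs]
      have hl3i : linPart (((t 3)⁻¹ : G 3) : FormalMap 3) = sg := by
        have e : (t 3)⁻¹ = v * rs * v⁻¹ := by
          change (v * rs * v⁻¹)⁻¹ = _
          rw [mul_inv_rev, mul_inv_rev, inv_inv, hrsi]
          group
        rw [e, linPart_conj kv2, linPart_rs]
      have g3 : gr 2 ((t 3 * (c1 * c2⁻¹) * (t 3)⁻¹ : G 3) : FormalMap 3) =
          act sg sg (gr 2 ((c1 * c2⁻¹ : G 3) : FormalMap 3)) := by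
        rw [gr_conj (le_refl 2) (t 3) k12, hl3, hl3i]
      rw [← g3]
      apply Submodule.add_mem _ (Submodule.add_mem _ _ _)
      · exact Submodule.subset_span (Or.inr ⟨hd, _, h3c, k3c, D3, hD3, rfl⟩)
      · exact Submodule.subset_span (Or.inr ⟨hd, _, h12, k12, D1, hD1, rfl⟩)
      · exact Submodule.subset_span (Or.inr ⟨hd, _, h23, (K 3 2).mul_mem k2 hk3i, D2, hD2, rfl⟩)
    · intro j
      fin_cases j
      · exact hinv c1 e1
      · exact hinv c2 e2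
      · exact hinv c3 e3
      · change v * rs * v⁻¹ * (v * rs * v⁻¹) = 1
        calc v * rs * v⁻¹ * (v * rs * v⁻¹) = v * (rs * rs) * v⁻¹ := by group
          _ = 1 := by rw [rs_sq]; group
      · exact hl
  rcases hF with hF | hF
  · -- linear part one: `l = rs * ε`
    have hcomm : rs * mone 3 = mone 3 * rs := by
      apply Units.ext
      change ofMatrix sg * ofMatrix (-1) = ofMatrix (-1) * ofMatrix sg
      rw [← ofMatrix_mul, ← ofMatrix_mul]
      simp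
    refine key F (rs * mone 3) 1 ?_ ?_ ?_ (mul_one F).symm
    · rw [mem_K, cong_two_iff, hF, linPart_one]
    · calc rs * mone 3 * (rs * mone 3) = rs * (mone 3 * rs) * mone 3 := by group
        _ = rs * (rs * mone 3) * mone 3 := by rw [hcomm]
        _ = (rs * rs) * (mone 3 * mone 3) := by group
        _ = 1 := by rw [rs_sq, hεε, one_mul]
    · calc (1 : G 3) = mone 3 * mone 3 := hεε.symm
        _ = mone 3 * (rs * rs) * mone 3 := by rw [rs_sq, mul_one]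
        _ = _ := by group
  · -- linear part minus one: `l = rs`
    refine key (F * mone 3) rs (mone 3) ?_ rs_sq ?_ ?_
    · rw [mem_K, cong_two_iff, Units.val_mul, linPart_mul, hF, linPart_mone, linPart_one]
      simp
    · rw [mul_assoc, rs_sq, mul_one]
    · rw [mul_assoc, hεε, mul_one]

end Pool.Agent.L7h57.RV
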