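import Pool.Agent.Helper89.RevLower

/-!
# Project RV (MP_2a1f98_al): k(2) = 4, m(2) = 2 and generic elements in all dimensions

Group of formal maps of (C^n, 0): `G n`.  `K n d` = maps congruent to the identity modulo order
`d`; `gr d u` = homogeneous part of degree `d`.  Library: Pool/Agent/Helper89/Rev*.lean
(RevGroup: FormalMap, linPart, Cong, exists_limit, ofMatrix; RevGraded: K, K_normal, gr, gr_mul,
gr_inv, gr_conj, exists_gr, mem_K_succ, gr_of_mem_K_succ, K_expand; RevApprox: unitOf,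
gr_commutator, three_involutions; RevDual: act, HomT, HomV, EquivT, solve_lin; RevConfig:
IsTorus, TorusComm, ReflComm; RevPackage: diagComm_of_equiv, reflComm_of_equiv, linear_package;
RevFactor: AJ, Jm, Sm, AJ_Jm_apply, H_apply, Sm_sq; RevTorus: bv, torusComm_of_diagComm).
-/

namespace Pool.Agent.L7h57.RV

open MvPolynomial Pool.Helper89.Rev

/-- the group of formal maps -/
abbrev G (n : ℕ) : Type := (FormalMap n)ˣ

/-- tuples of polynomials (vector fields) -/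
abbrev VF (n : ℕ) : Type := Fin n → MvPolynomial (Fin n) ℂ

/-- the bracket `C' D - D' C` -/
noncomputable def br {n : ℕ} (C D : VF n) : VF n :=
  fun i => ∑ j, (pderiv j (C i) * D j - pderiv j (D i) * C j)

/-- `F` is a product of `r` involutions -/
def ProdInv {n : ℕ} (r : ℕ) (F : G n) : Prop :=
  ∃ s : Fin r → G n, (∀ j, s j * s j = 1) ∧ F = (List.ofFn s).prod

/-- the map `-1` -/
noncomputable def mone (n : ℕ) : G n := unitOf (-1) (-1) (by simp) (by simp)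

/-- [COM] (60 lines) commutators in the filtration.  Proof: `c = x + C`, `w = x + W` with `C` of
order `≥ d`, `W` of order `≥ e`.  `c∘w = w + C(x+W)`, `w∘c = c + W(x+C)`, and
`C(x+W) - C(x)` has order `≥ d + e - 1` (library: `Rel_mon`, `subst_congr` style; each monomial of
degree `p ≥ d` changes by order `≥ p - 1 + e`), hence `c w ≡ w c` modulo order `d+e-1`; multiply
by `(w c)⁻¹` (`Cong.mul`). -/
def S_COM : Prop := ∀ (n d e : ℕ), 2 ≤ d → 2 ≤ e → ∀ c w : G n, c ∈ K n d → w ∈ K n e →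
  c * w * c⁻¹ * w⁻¹ ∈ K n (d + e - 1)

/-- [GRC] (150 lines) the leading term of a commutator `[c,w]`, `c ∈ K 2`, `w ∈ K d`, is the
bracket.  Proof: modulo order `d+2`: `C(x+W) = C(x) + Σ_j ∂_j C · W_j` (second order terms have
order `≥ 2d ≥ d+2`), and `∂_j C_i W_j ≡ ∂_j (gr 2 c)_i (gr d w)_j`; similarly
`W(x+C) = W + Σ ∂_j W C_j` modulo order `(d-2)+4 = d+2`.  So
`c w ≡ x + C + W + C'W`, `w c ≡ x + C + W + W'C` modulo order `d+2`, and with `z = [c,w]`,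
`c w = z (w c)`, `z = x + Z`, `Z` of order `≥ d+1`: `z(wc) ≡ wc + Z`, so `Z ≡ C'W - W'C`. -/
def S_GRC : Prop := ∀ (n d : ℕ), 2 ≤ d → ∀ c w : G n, c ∈ K n 2 → w ∈ K n d →
  c * w * c⁻¹ * w⁻¹ ∈ K n (d + 1) ∧
    gr (d + 1) ((c * w * c⁻¹ * w⁻¹ : G n) : FormalMap n) =
      br (gr 2 (c : FormalMap n)) (gr d (w : FormalMap n))

/-- the directions in degree `d` that can be reached by moving the involutions `t j` -/
def GenSet {n r : ℕ} (t : Fin r → G n) (d : ℕ) : Set (VF n) :=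
  {x | ∃ (j : Fin r) (e : VF n), HomT d e ∧
      x = e - act (linPart (t j : FormalMap n)) (linPart (t j : FormalMap n)) e} ∪
  {x | 4 ≤ d ∧ ∃ γ ∈ Subgroup.closure (Set.range t), γ ∈ K n 2 ∧ ∃ D : VF n, HomT (d - 1) D ∧
      x = br (gr 2 (γ : FormalMap n)) D}

/-- [STEP] (200 lines; hypotheses `S_COM`, `S_GRC`).  Proof.  `P = t_1 ⋯ t_r`.
Put `e = 3` if `d = 3` and `e = d - 1` if `d ≥ 4` and `M = K_e` modulo `K_{d+1}` (abelian since
`2e - 1 ≥ d + 1`).  For `w_j ∈ K_e` put `t'_j = w_j t_j w_j⁻¹`, `p_j = t_1 ⋯ t_{j-1}`,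
`σ_j = p_j t_j p_j⁻¹`, `v_j = p_j w_j p_j⁻¹` (arbitrary in `K_e`).  Then modulo `K_{d+1}`
`P' P⁻¹ ≡ ∏_j p_j (w_j · t_j w_j⁻¹ t_j⁻¹) p_j⁻¹ = ∏_j v_j σ_j v_j⁻¹ σ_j⁻¹` (all factors are in
`K_e`, which is abelian modulo `K_{d+1}`; induction on `r` or on the list).
Let `N ≤ K_e` be the subgroup of the `m` congruent modulo `K_{d+1}` to such a product.  It is
normalised by the `σ_i` (`σ_i m σ_i⁻¹ = (σ_i m σ_i⁻¹ m⁻¹) m` and both factors are in `N`), so for all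
`γ` in the group generated by the `σ_i` (= the group generated by the `t_j`, because
`p_{j+1} = σ_j p_j`) and all `v ∈ K_e`: `v γ v⁻¹ γ⁻¹ ∈ N` (`[v,γγ'] = [v,γ]·γ[v,γ']γ⁻¹`).
So `gr_d (N ∩ K_d)` is an additive subgroup that contains: `e - act t_j t_j e` (take `v ∈ K_d` with
`gr_d v = e`, `γ = t_j`: `gr_commutator`) and, for `d ≥ 4`, `br (gr 2 γ) D` (take `v ∈ K_{d-1}` with
`gr v = -D`: `[v,γ] = [γ,v]⁻¹`, `S_GRC`).  Both families are stable under scalars, so the additive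
subgroup generated by `GenSet t d` is its span; hence `gr_d (F P⁻¹) = gr_d m`, `m ∈ N ∩ K_d`,
`m ≡ P' P⁻¹`, so `F P'⁻¹ = (F P⁻¹)(P P'⁻¹) ∈ K_{d+1}`. -/
def S_STEP : Prop := ∀ (n r : ℕ) (t : Fin r → G n), (∀ j, t j * t j = 1) → ∀ d : ℕ, 3 ≤ d →
  ∀ F : G n, F * ((List.ofFn t).prod)⁻¹ ∈ K n d →
  gr d ((F * ((List.ofFn t).prod)⁻¹ : G n) : FormalMap n) ∈ Submodule.span ℂ (GenSet t d) →
  ∃ w : Fin r → G n, (∀ j, w j ∈ K n 3) ∧ (∀ j, w j ∈ K n (d - 1)) ∧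
    F * ((List.ofFn (fun j => w j * t j * (w j)⁻¹)).prod)⁻¹ ∈ K n (d + 1)

/-- [LIM] (60 lines) limits of involutions.  `exists_limit` for each `j`; the limit `y_j` satisfies
`y_j y_j = 1` by `eq_of_cong`, so it is a unit; `F = ∏` by `eq_of_cong` again (compare
RevApprox.three_involutions). -/
def S_LIM : Prop := ∀ (n r : ℕ) (t : ℕ → Fin r → G n) (F : G n),
  (∀ k j, t k j * t k j = 1) → (∀ k j, t (k + 1) j * (t k j)⁻¹ ∈ K n (k + 2)) →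
  (∀ k, F * ((List.ofFn (t k)).prod)⁻¹ ∈ K n (k + 2)) → ProdInv r F

/-- [GEN] (120 lines; hypotheses `S_STEP`, `S_LIM`).  Iterate `S_STEP` for `d = d0, d0+1, …`.
The criterion is preserved: if `w_j ∈ K_3` and `t'_j = w_j t_j w_j⁻¹` then `linPart t'_j =
linPart t_j`, `t'_j ≡ t_j` modulo the normal subgroup `K_3`, and for each `γ` in the closure of
the `t_j` there is `γ'` in the closure of the `t'_j` with `γ' γ⁻¹ ∈ K_3` (closure induction), so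
`gr 2 γ' = gr 2 γ` if `γ ∈ K_2`: hence `GenSet t d ⊆ GenSet t' d`. `t'_j t_j⁻¹ ∈ K_{d-1}`, so the
sequence (indexed by `k = d - d0`) satisfies the hypotheses of `S_LIM` (`d0 ≥ 3`). -/
def S_GEN : Prop := ∀ (n r : ℕ) (t : Fin r → G n), (∀ j, t j * t j = 1) → ∀ d0 : ℕ, 3 ≤ d0 →
  ∀ F : G n, F * ((List.ofFn t).prod)⁻¹ ∈ K n d0 →
  (∀ d, d0 ≤ d → ∀ w : VF n, HomT d w → w ∈ Submodule.span ℂ (GenSet t d)) → ProdInv r F

/-! ### n = 2: the fields near `x E`, `y E` -/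

/-- `x E` -/
noncomputable def xE : VF 2 := fun i => X 0 * X i

/-- `y E` -/
noncomputable def yE : VF 2 := fun i => X 1 * X i

/-- the sum of the absolute values of the coefficients of a polynomial -/
noncomputable def nr1 (p : MvPolynomial (Fin 2) ℂ) : ℝ := ∑ m ∈ p.support, ‖coeff m p‖

/-- the sum of the absolute values of the coefficients -/
noncomputable def nrm (P : VF 2) : ℝ := ∑ i, nr1 (P i)

/-- [NB] (100 lines).  `nr1 (p+q) ≤ nr1 p + nr1 q`, `nr1 (p q) ≤ nr1 p · nr1 q`,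
`nr1 (pderiv j p) ≤ k · nr1 p` for `p` homogeneous of degree `k`. -/
def S_NB : Prop := ∀ (d : ℕ) (A D : VF 2), HomT 2 A → HomT d D →
  nrm (br A D) ≤ (d + 2) * nrm A * nrm D

/-- [DV] (180 lines) a right inverse of `(D, D') ↦ [xE, D] + [yE, D']` in degree `d ≥ 4`.
For `D` homogeneous of degree `d - 1`: `br xE D = D_0 E - (d-2) x D`, `br yE D = D_1 E - (d-2) y D`
(`E = (x,y)`, Euler: `Σ_j ∂_j D_i x_j = (d-1) D_i`), and for `h` of degree `d - 2`: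
`br xE (h E) = -(d-3) x h E`, `br yE (h E) = -(d-3) y h E`.
Write `w = x u + y v` (linear in `w`: put the monomials divisible by `x` into `x u`, the others,
multiples of `y^d`, into `y v`; `nrm u + nrm v ≤ nrm w`), `q = (u_0 + v_1)/(d-2)`,
`q = x h + y h'` in the same way.  Then `B w = -u/(d-2) - h E/(d-3)`,
`B' w = -v/(d-2) - h' E/(d-3)`.  Norm: `nrm (h E) = 2 nr1 h`, so the sum is
`≤ nrm w /(d-2) · (1 + 2/(d-3)) ≤ 3 nrm w/(d-2)`.  Linearity: e.g. define `u` by `u = w /ᵐᵒⁿᵒᵐⁱᵃˡ x`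
(`MvPolynomial.divMonomial`) and `v` by `(w - x u) /ᵐᵒⁿᵒᵐⁱᵃˡ y`. -/
def S_DV : Prop := ∀ d : ℕ, 4 ≤ d → ∃ B B' : VF 2 →ₗ[ℂ] VF 2, ∀ w : VF 2, HomT d w →
  HomT (d - 1) (B w) ∧ HomT (d - 1) (B' w) ∧ br xE (B w) + br yE (B' w) = w ∧
    nrm (B w) + nrm (B' w) ≤ 3 / ((d : ℝ) - 2) * nrm w

/-- [SUR] (100 lines; hypotheses `S_NB`, `S_DV`).  `δ = 1/10`.  On the finite dimensional space
`HomV 2 d` put `T w = br (xE + A) (B w) + br (yE + A') (B' w) = w + br A (B w) + br A' (B' w)`.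
`nrm (T w - w) ≤ (d+1) δ · 3/(d-2) nrm w ≤ (3/4) nrm w`, so `T` is injective, hence surjective. -/
def S_SUR : Prop := ∃ δ : ℝ, 0 < δ ∧ ∀ A A' : VF 2, HomT 2 A → HomT 2 A' → nrm A < δ → nrm A' < δ →
  ∀ d : ℕ, 4 ≤ d → ∀ w : VF 2, HomT d w → ∃ D D' : VF 2, HomT (d - 1) D ∧ HomT (d - 1) D' ∧
    w = br (xE + A) D + br (yE + A') D'

/-- [DEG3] (180 lines).  `br (xE + A) (yE + B) = br xE B + br A yE + br A B` and
`br xE B + br A yE = (y A_0 - x A_1, y B_0 - x B_1)`, which is onto the pairs of cubic forms.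
Take coordinates `ℂ^12 → ℂ^8` (6 coefficients for each of `A`, `B`; 4 for each component of the
bracket): the map is linear onto plus quadratic, so it is open at `0` (inverse function theorem,
`HasStrictFDerivAt.map_nhds_eq_of_surj`): for small `c ≠ 0` the value `c R` is taken at a small
point. -/
def S_DEG3 : Prop := ∀ δ : ℝ, 0 < δ → ∀ R : VF 2, HomT 3 R → ∃ c : ℂ, c ≠ 0 ∧ ∃ A B : VF 2,
  HomT 2 A ∧ HomT 2 B ∧ nrm A < δ ∧ nrm B < δ ∧ br (xE + A) (yE + B) = c • R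

/-- [BASE] (40 lines; hypotheses `S_SUR`, `S_DEG3`): `P = s (xE + A)`, `Q = s (yE + B)`,
`s² c = 1`. -/
def S_BASE : Prop := ∀ R : VF 2, HomT 3 R → ∃ P Q : VF 2, HomT 2 P ∧ HomT 2 Q ∧ br P Q = R ∧
  ∀ d : ℕ, 4 ≤ d → ∀ w : VF 2, HomT d w → ∃ D D' : VF 2, HomT (d - 1) D ∧ HomT (d - 1) D' ∧
    w = br P D + br Q D'

/-- [SYM3] (150 lines).  For `c ∈ K_2` with `ε c ε = c⁻¹` (`ε = -1`): the part of degree 3 is
`½ C' C`, `C = gr 2 c` (`ε c ε = x - C + C_3`, `c⁻¹ = x - C + (C' C - C_3)`).  Composition modulo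
order 4: `(c∘d)_2 = C + D`, `(c∘d)_3 = C_3 + D_3 + C' D`.  With `G = gr 2 c1`, `P = gr 2 c3`,
`gr 2 c2 = G + P` one gets degree 3 part `½ (P' G - G' P)` (use `S_GRC`-like expansions, or prove
the two composition formulas for coefficients directly; alternatively, for `z = c1 c2⁻¹ c3 ∈ K_3`:
`ε z ε = c1⁻¹ c2 c3⁻¹` has the same `gr 3`, and `z · (ε z ε)` is a product of commutators of the
`c_i` modulo `K_4`, in which `K_2` is nilpotent of class two: `2 gr 3 z = br (gr 2 c3) (gr 2 c1)`;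
may assume `S_GRC`, `S_COM`). -/
def S_SYM3 : Prop := ∀ (n : ℕ) (c1 c2 c3 : G n), c1 ∈ K n 2 → c2 ∈ K n 2 → c3 ∈ K n 2 →
  mone n * c1 * mone n = c1⁻¹ → mone n * c2 * mone n = c2⁻¹ → mone n * c3 * mone n = c3⁻¹ →
  gr 2 (c2 : FormalMap n) = gr 2 (c1 : FormalMap n) + gr 2 (c3 : FormalMap n) →
  c1 * c2⁻¹ * c3 ∈ K n 3 ∧ (2 : ℂ) • gr 3 ((c1 * c2⁻¹ * c3 : G n) : FormalMap n) =
    br (gr 2 (c3 : FormalMap n)) (gr 2 (c1 : FormalMap n))

/-- [LEMA] (150 lines; hypotheses `S_GEN`, `S_BASE`, `S_SYM3`).  `ε = mone 2`, `Φ = F ε ∈ K_2`.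
(1) Conjugating `F` by `u ∈ K_2` with `gr 2 u = -½ gr 2 Φ` we may assume `Φ ∈ K_3`
(`u F u⁻¹ ε = u Φ (ε u⁻¹ ε)`, `gr 2 (ε u⁻¹ ε) = gr 2 u`; `ProdInv` is invariant under conjugation).
(2) `R = gr 3 Φ`; `S_BASE` for `2 R`: `br P Q = 2 R`.  `c = v ε v⁻¹ ε` with `v ∈ K_2`,
`gr 2 v = ½ C` satisfies `ε c ε = c⁻¹`, `gr 2 c = C`; choose `c3, c1, c2` in this way with
`gr 2` equal to `P, Q, P + Q`.  (3) `t_j = c_j ε` are involutions, `t_1 t_2 t_3 = c1 c2⁻¹ c3 ε`, and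
`F (t_1 t_2 t_3)⁻¹ = Φ (c1 c2⁻¹ c3)⁻¹ ∈ K_4` by `S_SYM3`.  (4) `S_GEN` with `d0 = 4`: the closure
contains `γ = t_1 t_2 = c1 c2⁻¹` with `gr 2 γ = -P` and `γ' = t_2 t_3 = c2 c3⁻¹` with
`gr 2 γ' = Q`, so the span of `GenSet` contains all `br P D + br Q D'`. -/
def S_LEMA : Prop := ∀ F : G 2, linPart (F : FormalMap 2) = -1 → ProdInv 3 F

/-- [LEMC] (200 lines; hypotheses `S_GEN`, `S_DV`).  First `linPart F = i`; `λ` = the linear map
`i`.  On degree `d`, `act λ λ⁻¹ P = i^(1-d) P`.  (1) Conjugating by `u ∈ K_2`,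
`gr 2 u = -(gr 2 (F λ⁻¹))/(1+i)`, we may assume `F λ⁻¹ ∈ K_3`.
(2) `X = !![0,1;1,0]`, `Y = !![0,-i;i,0]`, `Z = !![1,0;0,-1]`, `X Y Z = i`.  With
`a_1 = -i (x-y) E`, `a_2 = (x + i y) E`, `a_3 = (i-1) y E` we have `act t t a = -a` for the pairs
`(X,a_1), (Y,a_2), (Z,a_3)`, and `a_1 + act X X a_2 + act X X (act Y Y a_3) = 0`
(`act t t (ℓ E) = (ℓ∘t) E`).  Put `t_j = u_j (linear X, Y, Z) u_j⁻¹`, `gr 2 u_j = ½ a_j`, so
`t_j = α_j X_j`, `gr 2 α_j = a_j`, and `t_1 t_2 t_3 ≡ λ` modulo `K_3`.  So `F (t_1 t_2 t_3)⁻¹ ∈ K_3`.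
(3) `S_GEN` with `d0 = 3`: if `d ≢ 1 mod 4` then `w = (1 - i^(1-d))⁻¹ (w - act λ λ⁻¹ w)` and
`w - act λ λ⁻¹ w = (w - act X X w₁) …` telescopes into elements `e - act t_j t_j e`
(`e - ABC e = (e - A e) + A(e - B e) + AB(e - C e)` and `A f = f - (f - A f)`).
If `d ≡ 1 mod 4`, `d ≥ 5`: `P̂ = t_1 t_2 t_3`, `γ_j = P̂ t_j P̂⁻¹ t_j⁻¹ ∈ K_2` and
`gr 2 γ_j = act λ λ⁻¹ a_j - a_j = -(1+i) a_j`; `a_1`, `a_2` span `xE`, `yE`; use `S_DV`.
Finally `linPart F = -i`: apply this to `F⁻¹`. -/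
def S_LEMC : Prop := ∀ F : G 2, (linPart (F : FormalMap 2) = Complex.I • 1 ∨
  linPart (F : FormalMap 2) = (-Complex.I) • 1) → ProdInv 3 F

/-! ### linear triples for a general reflection -/

/-- the condition on the reflection vector -/
def Good {n : ℕ} (v : Fin n → ℂ) : Prop :=
  ∑ i, v i = 1 ∧ (∀ i, v i ≠ 0 ∨ v (Fin.rev i) ≠ 0) ∧ ∃ i, v i ≠ v (Fin.rev i)

/-- [PROP] (copy RevConfig lines 17-365, i.e. `sum_zero_of_comm`, `torus_hyperplane`,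
`pair_identities`, `proportional`, deleting the unused hypothesis `VShape`). -/
def S_PROP : Prop := ∀ (n : ℕ) (v : Fin n → ℂ) (Φ : VF n), ReflComm v Φ → TorusComm Φ →
  ∀ i0, v i0 ≠ 0 → ∀ l : Fin n, Fin.rev l ≠ l → ∀ (i : Fin n) (y : Fin n → ℂ),
    eval y (Φ i) * y l = y i * eval y (Φ l)

/-- [NI2] (80 lines) no invariants for `n = 2`.  `h` is torus invariant and homogeneous of degree
`d ≥ 1`, so `h = c (x y)^k`, `k ≥ 1` (coefficients).  Reflection invariance at `y = (1,0)` gives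
`c ((1 - 2 v_0)(-2 v_1))^k = 0` and at `y = (0,1)`: `c ((-2 v_0)(1 - 2 v_1))^k = 0`.  With
`v_0 + v_1 = 1`, `v_0 ≠ v_1` this forces `c = 0`. -/
def S_NI2 : Prop := ∀ (v : Fin 2 → ℂ), Good v → ∀ (d : ℕ) (h : MvPolynomial (Fin 2) ℂ), 1 ≤ d →
  h.IsHomogeneous d → (∀ lam : Fin 2 → ℂ, IsTorus lam → ∀ y : Fin 2 → ℂ,
    eval (fun k => lam k * y k) h = eval y h) →
  (∀ y : Fin 2 → ℂ, eval (fun k => y k - 2 * (∑ j, y j) * v k) h = eval y h) → h = 0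

/-- [NIN] (250 lines) no invariants for `n ≥ 3`.  Let `i` with `δ = v_i - v_{i'} ≠ 0`
(`i' = rev i`), `s = Σ y_j`, `D_v h = Σ v_j ∂_j h`.  (a) torus invariance:
`y_j ∂_j h = y_{j'} ∂_{j'} h` for all `j ≠ j'` (differentiate); `∂_j h` of the invariance.
(b) for all `j ≠ j'` with `δ_j = v_j - v_{j'}`:
`(y_j - y_{j'} - 2 δ_j s) D_v h + s (v_j ∂_j h - v_{j'} ∂_{j'} h) = 0`:
`h(S Λ_z S y) = h(y)` for `Λ_z` = `z` at `j`, `z⁻¹` at `j'`, `S` = the reflection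
`y ↦ y - 2 s v`; differentiate at `z = 1`, using (a).  (c) `a = y_i ∂_i h` is a torus invariant
polynomial and, multiplying (b) by `y_i y_{i'}`, it vanishes at the points where
`m = y_i - y_{i'} - 2 δ s` vanishes and `s ≠ 0`, `v_i y_{i'} ≠ v_{i'} y_i`, `y_i y_{i'} ≠ 0`.  For
generic `y` there is `z ≠ 0` such that `Λ_z y` (acting at `i, i'`) is such a point
(`c = Σ_{j≠i,i'} y_j ≠ 0`; `(1-2δ) y_i z² - 2δ c z - (1+2δ) y_{i'} = 0` has a root `z ≠ 0`;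
`s = 0` there only if `c² = 4 y_i y_{i'}`; `v_i y_{i'} = z² v_{i'} y_i` only if another nonzero
polynomial in `y` vanishes), so `a = 0`, `∂_i h = ∂_{i'} h = 0`.  (d) then (b) for `i` gives
`D_v h = 0`, (b) for `j` gives `v_j ∂_j h = v_{j'} ∂_{j'} h`, with (a) `∂_j h = ∂_{j'} h = 0`, and
for the middle index `m`: `0 = D_v h = v_m ∂_m h`.  So `h` is constant, `h = 0`. -/
def S_NIN : Prop := ∀ (n : ℕ), 3 ≤ n → ∀ (v : Fin n → ℂ), Good v →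
  ∀ (d : ℕ) (h : MvPolynomial (Fin n) ℂ), 1 ≤ d →
  h.IsHomogeneous d → (∀ lam : Fin n → ℂ, IsTorus lam → ∀ y : Fin n → ℂ,
    eval (fun k => lam k * y k) h = eval y h) →
  (∀ y : Fin n → ℂ, eval (fun k => y k - 2 * (∑ j, y j) * v k) h = eval y h) → h = 0

/-- absence of invariants in dimension `n` -/
def NoInv (n : ℕ) : Prop := ∀ (v : Fin n → ℂ), Good v →
  ∀ (d : ℕ) (h : MvPolynomial (Fin n) ℂ), 1 ≤ d →
  h.IsHomogeneous d → (∀ lam : Fin n → ℂ, IsTorus lam → ∀ y : Fin n → ℂ,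
    eval (fun k => lam k * y k) h = eval y h) →
  (∀ y : Fin n → ℂ, eval (fun k => y k - 2 * (∑ j, y j) * v k) h = eval y h) → h = 0

/-- [THM] (150 lines; hypothesis `S_PROP`).  Equivariant `Φ` of degree `d ≥ 2` for
`AJ n, Jm n, Sm v`: as in `linear_package` (`diagComm_of_equiv`, `torusComm_of_diagComm`,
`reflComm_of_equiv`) `Φ` is `TorusComm` and `ReflComm v`; by `S_PROP` `Φ_i = y_i h` (fix `l` with
`rev l ≠ l`; `X_l ∣ X_i Φ_l` for some `i ≠ l`, `X_l` prime, so `Φ_l = X_l h`), `h` homogeneous of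
degree `d - 1`, torus and reflection invariant; so `h = 0` by `NoInv n`, `Φ = 0`.  Then
`solve_lin` and `three_involutions` for the conjugate `g⁻¹ F g` (see `six_involutions` in
Results/MP_2a1f98_al/ProductLengths.lean).  `Φ` is in `Good v` form: `∑ v = 1` gives
`Sm v * Sm v = 1` (`Sm_sq`). -/
def S_THM : Prop := ∀ (n : ℕ), 2 ≤ n → NoInv n → ∀ (v : Fin n → ℂ), Good v →
  ∀ (F : G n) (g g' : Matrix (Fin n) (Fin n) ℂ), g * g' = 1 → g' * g = 1 →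
  linPart (F : FormalMap n) = g * (AJ n * Jm n * Sm v) * g' → ProdInv 3 F

/-- [L2A] (100 lines) 2x2: `H = AJ 2 * Jm 2 * Sm v` has rows `b_i (δ_ij - 2 v_j)`, `b = bv`,
`b_0 b_1 = 1`, `b_0 ≠ b_1`.  Choose `v_0 + v_1 = 1` with `trace H = trace L`:
`(b_0 - b_1)(1 - 2 v_0) = τ`; `v_0 ≠ v_1` as `τ ≠ 0`; `det H = -1`; `H` is not scalar; two
non-scalar 2x2 matrices with the same trace and determinant are similar (both are similar to the
companion matrix: take `e` with `e, M e` independent). -/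
def S_L2A : Prop := ∀ L : Matrix (Fin 2) (Fin 2) ℂ, L.det = -1 → L.trace ≠ 0 →
  (∀ c : ℂ, L ≠ c • 1) → ∃ (v : Fin 2 → ℂ) (g g' : Matrix (Fin 2) (Fin 2) ℂ), Good v ∧
    g * g' = 1 ∧ g' * g = 1 ∧ L = g * (AJ 2 * Jm 2 * Sm v) * g'

/-- [L2B] (60 lines) `L` is similar to `!![0,-1;1,t]`; `s = !![1, x; 0, -1]` with `x = t + 1`
gives `L s = !![0,1;1,1]`. -/
def S_L2B : Prop := ∀ L : Matrix (Fin 2) (Fin 2) ℂ, L.det = 1 → (∀ c : ℂ, L ≠ c • 1) →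
  ∃ s : Matrix (Fin 2) (Fin 2) ℂ, s * s = 1 ∧ (L * s).det = -1 ∧ (L * s).trace ≠ 0 ∧
    ∀ c : ℂ, L * s ≠ c • 1

/-- [CAU] (150 lines) Cauchy matrices.  `Sm v k l = δ_kl - 2 v_l`.  The Cauchy matrix
`(1/(b_j - μ_k))_{k,j}` is invertible (kernel: `Σ_j c_j/(b_j - x)` has numerator of degree `< n`
with `n` zeros), so there is `v` with `Σ_j 2 b_j v_j/(b_j - μ_k) = 1` for all `k`.  `v_i ≠ 0`:
otherwise `1 - Σ_{j≠i} 2 b_j v_j/(b_j - x)` has numerator of degree `n-1`, monic up to sign, with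
`n` zeros.  `K_{k j} = v_j/(b_j - μ_k)` satisfies `K (D (Sm v)) = diag μ K`.  Determinants:
`det (Sm v) = 1 - 2 Σ v` (`Matrix.det_one_add_replicateCol_mul_replicateRow` or similar), so
`∏ μ = ∏ b (1 - 2 Σ v)`. -/
def S_CAU : Prop := ∀ (n : ℕ) (b μ : Fin n → ℂ), Function.Injective b → Function.Injective μ →
  (∀ i k, b i ≠ μ k) → (∀ i, b i ≠ 0) → ∃ (v : Fin n → ℂ) (Q : Matrix (Fin n) (Fin n) ℂ),
    IsUnit Q ∧ Q * (Matrix.diagonal b * Sm v) = Matrix.diagonal μ * Q ∧ (∀ i, v i ≠ 0) ∧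
    (∏ k, μ k = -∏ i, b i → ∑ i, v i = 1)

/-- good spectra -/
def GoodSpec {n : ℕ} (μ : Fin n → ℂ) : Prop :=
  Function.Injective μ ∧ (∀ i k : Fin n, bv i ≠ μ k) ∧ ∏ k, μ k = -1 ∧ ∑ k, μ k ≠ ∑ k, (μ k)⁻¹

/-- [MU] (120 lines) `n ≥ 2`, `p ≠ 0`, `p ≠ 1 ∨ 3 ≤ n`; `S` a finite set to avoid.  Choose
`μ_0, …, μ_{n-3}` distinct outside `S ∪ {0}` with `p' = p/∏ ≠ 1`, and `t`, `p'/t` for the last two
with `t` generic: `Σ μ - Σ μ⁻¹ = (1 - 1/p') t + (p' - 1)/t + const` is not constant. -/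
def S_MU : Prop := ∀ (n : ℕ) (p : ℂ) (S : Finset ℂ), 2 ≤ n → p ≠ 0 → (p ≠ 1 ∨ 3 ≤ n) →
  ∃ μ : Fin n → ℂ, Function.Injective μ ∧ (∀ k, μ k ∉ S) ∧ (∀ k, μ k ≠ 0) ∧ ∏ k, μ k = p ∧
    ∑ k, μ k ≠ ∑ k, (μ k)⁻¹

/-- [LS] (200 lines; hypotheses `S_CAU`, `S_MU`).  (A) `∏ l = 1`: `S_CAU` for `b = l` and `μ` with
`∏ μ = -1` avoiding all `l_i`, `bv i`; `s = Sm v`, `∑ v = 1`.  (B) `∏ l = -1`, `n` odd: `μ'` with
`∏ μ' = 1` avoiding `l_i`, `-bv i`, `s = -Sm v`, `μ = -μ'` (`-Σ μ' ≠ -Σ μ'⁻¹`).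
(C) `∏ l = -1`, `n ≥ 4` even: blocks `{0,1}` and the rest (`Fin (2 + m)`, `finSumFinEquiv`,
`Matrix.fromBlocks`): `μ_0 μ_1 = -l_0 l_1`, `∏ rest = -∏ l rest`, total `∏ l = -1`; choose first
two values `t, -l_0 l_1/t`, then the rest with `S_MU` for the finite set to avoid; the condition
`Σ μ ≠ Σ μ⁻¹` by choosing `t` last (generic), or use the freedom in both. -/
def S_LS : Prop := ∀ (n : ℕ), 3 ≤ n → ∀ l : Fin n → ℂ, Function.Injective l →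
  (∏ i, l i = 1 ∨ ∏ i, l i = -1) → ∃ (s Q : Matrix (Fin n) (Fin n) ℂ) (μ : Fin n → ℂ),
    s * s = 1 ∧ IsUnit Q ∧ Q * (Matrix.diagonal l * s) = Matrix.diagonal μ * Q ∧ GoodSpec μ

/-- [D4] (120 lines; hypotheses `S_THM`, `S_NIN`, `S_CAU`, `S_LS`).  `L = g diag(l) g'`.
`M = diag(l) s` is similar to `diag μ` (`S_LS`), which is similar to
`diag(bv) * Sm v = AJ n * Jm n * Sm v` by `S_CAU` (`∏ bv = 1`, so `∑ v = 1`).  `Good v`: all
`v_i ≠ 0`; if `v_i = v_{rev i}` for all `i` then comparing the traces of `diag(bv) * Sm v` and of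
its inverse `Sm v * diag(bv⁻¹)` gives `Σ μ = Σ μ⁻¹` (`bv (rev i) = (bv i)⁻¹`), a contradiction.
So `F · (g s g')` is a product of three involutions by `S_THM`. -/
def S_D4 : Prop := ∀ (n : ℕ), 3 ≤ n → ∀ (F : G n) (l : Fin n → ℂ)
  (g g' : Matrix (Fin n) (Fin n) ℂ), g * g' = 1 → g' * g = 1 → Function.Injective l →
  linPart (F : FormalMap n) = g * Matrix.diagonal l * g' →
  (∏ i, l i = 1 ∨ ∏ i, l i = -1) → ProdInv 4 F

/-- [N2] (150 lines; hypotheses `S_LEMA`, `S_LEMC`, `S_THM`, `S_NI2`, `S_L2A`, `S_L2B`).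
Cases for `L = linPart F`, `det L = ±1`: `L = c • 1`: `c⁴ = 1`: `c = -1`: `S_LEMA`; `c = 1`:
`F = (F ε) ε`; `c = ±i`: `S_LEMC`.  `L` not scalar: `det L = 1`: `S_L2B`, then `S_L2A`, `S_THM` for
`F s`.  `det L = -1`, `trace L ≠ 0`: `S_L2A`.  `det L = -1`, `trace L = 0`: `L² = 1`
(Cayley-Hamilton), `F = (F (-L)) (-L)` and `F (-L)` has linear part `-1`. -/
def S_N2 : Prop := ∀ F : G 2, ((linPart (F : FormalMap 2)).det = 1 ∨
  (linPart (F : FormalMap 2)).det = -1) → ProdInv 4 F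

end Pool.Agent.L7h57.RV
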