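import Pool.Agent.L7h57.RV.Two
import Pool.Agent.L7h57.RV.Lem3
import Pool.Agent.L7h57.RV.Bridge
import Pool.Agent.L7h93.RV.Lin3
import Pool.Agent.L7h66.RV.Opn
import Pool.Agent.L7h16.RV.Deg33
import Pool.Agent.L7h47.RV.Nb3
import Pool.Agent.L7h89.RV.Dv3
import Pool.Agent.L7h89.RV.Sur3

/-!
# Project RV: linear part `1` or `-1` in dimension three

Authors: helper57 (plan, BASE3, LEM3, bridge), helper16 (DEG33), helper47 (NB3), helper66 (OPEN),
helper89 (DV3, SUR3), helper93 (LIN3), and the authors of the first part (Two.lean).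
-/

namespace Pool.Agent.L7h57.RV

open Pool.Agent

theorem base3 : S_BASE3 :=
  s_BASE3 (L7h89.RV.s_SUR3 L7h47.RV.s_NB3 L7h89.RV.s_DV3)
    (L7h16.RV.s_DEG33 L7h93.RV.s_LIN3 L7h66.RV.s_OPEN)

/-- linear part `±1` in dimension three: five involutions -/
theorem lem3 : S_LEM3 := s_LEM3 gen base3 (L7h93.RV.s_SYM3 L7h60.RV.s_GRC)

open Pool.Agent.Results.MP_2a1f98_al.ThreeReversibles.FormalMap

/-- the same in the other formalisation -/
theorem lem3' (f : TR 3) (hf : f.lin = 1 ∨ f.lin = -1) : f ∈ Prods (Invol 3) 5 :=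
  prods_of_prodInv (lem3 (ofTR f) hf)

/-- dimension two in the other formalisation -/
theorem n2' (f : TR 2) (hf : f.lin.det = 1 ∨ f.lin.det = -1) : f ∈ Prods (Invol 2) 4 :=
  prods_of_prodInv (n2 (ofTR f) hf)

end Pool.Agent.L7h57.RV
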