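import Pool.Agent.L7h57.RV.Stm

/-!
# Project RV: small tools for `ProdInv`
-/

namespace Pool.Agent.L7h57.RV

open MvPolynomial Pool.Helper89.Rev

variable {n : ℕ}

/-- one more involution on the right -/
theorem ProdInv.snoc {r : ℕ} {F s : G n} (h : ProdInv r F) (hs : s * s = 1) :
    ProdInv (r + 1) (F * s) := by
  obtain ⟨t, ht, rfl⟩ := h
  refine ⟨Fin.snoc (α := fun _ => G n) t s, ?_, ?_⟩
  · intro j
    refine Fin.lastCases ?_ (fun i => ?_) j
    · rw [Fin.snoc_last]; exact hs
    · rw [Fin.snoc_castSucc]; exact ht i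
  · rw [List.ofFn_succ', List.concat_eq_append, List.prod_append]
    simp only [Fin.snoc_castSucc, Fin.snoc_last, List.prod_cons, List.prod_nil, mul_one]

/-- one more involution, possibly the identity -/
theorem ProdInv.succ {r : ℕ} {F : G n} (h : ProdInv r F) : ProdInv (r + 1) F := by
  have := h.snoc (s := 1) (one_mul 1)
  rwa [mul_one] at this

/-- conjugation -/
theorem ProdInv.conj {r : ℕ} {F : G n} (h : ProdInv r F) (u : G n) :
    ProdInv r (u * F * u⁻¹) := by
  obtain ⟨t, ht, rfl⟩ := h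
  refine ⟨fun j => u * t j * u⁻¹, fun j => ?_, ?_⟩
  · calc u * t j * u⁻¹ * (u * t j * u⁻¹) = u * (t j * t j) * u⁻¹ := by group
      _ = 1 := by rw [ht j]; group
  · have h1 : (List.ofFn (fun j => u * t j * u⁻¹)) = (List.ofFn t).map (MulAut.conj u) := by
      rw [List.map_ofFn]
      rfl
    rw [h1, ← map_list_prod, MulAut.conj_apply]

/-- removing a conjugation -/
theorem ProdInv.of_conj {r : ℕ} {F : G n} {u : G n} (h : ProdInv r (u * F * u⁻¹)) :
    ProdInv r F := by
  have := h.conj u⁻¹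
  have e : u⁻¹ * (u * F * u⁻¹) * u⁻¹⁻¹ = F := by group
  rwa [e] at this

/-- inverses -/
theorem ProdInv.inv {r : ℕ} {F : G n} (h : ProdInv r F) : ProdInv r F⁻¹ := by
  obtain ⟨t, ht, rfl⟩ := h
  refine ⟨fun j => t (Fin.rev j), fun j => ht _, ?_⟩
  rw [List.prod_inv_reverse]
  congr 1
  have h1 : (List.ofFn t).map (fun x => x⁻¹) = List.ofFn t := by
    rw [List.map_ofFn]
    congr 1
    funext j
    exact inv_eq_of_mul_eq_one_left (ht j)
  rw [h1]
  apply List.ext_getElem
  · simp
  · intro i h1 h2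
    simp only [List.getElem_reverse, List.getElem_ofFn]
    congr 1
    apply Fin.ext
    simp only [Fin.val_rev]
    simp at h1 h2 ⊢
    omega

/-- the square of `unitOf s s` -/
theorem unitOf_sq {s : Matrix (Fin n) (Fin n) ℂ} (q : s * s = 1) :
    unitOf s s q q * unitOf s s q q = 1 := by
  apply Units.ext
  change ofMatrix s * ofMatrix s = 1
  rw [← ofMatrix_mul, q, ofMatrix_one]

theorem mone_sq (n : ℕ) : mone n * mone n = 1 := by
  apply Units.ext
  change ofMatrix (-1 : Matrix (Fin n) (Fin n) ℂ) * ofMatrix (-1) = 1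
  rw [← ofMatrix_mul]
  have : (-1 : Matrix (Fin n) (Fin n) ℂ) * (-1) = 1 := by simp
  rw [this, ofMatrix_one]

theorem mone_inv (n : ℕ) : (mone n)⁻¹ = mone n := inv_eq_of_mul_eq_one_left (mone_sq n)

theorem linPart_mone (n : ℕ) : linPart ((mone n : G n) : FormalMap n) = -1 := linPart_unitOf _ _ _ _

end Pool.Agent.L7h57.RV
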